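import Pool.Agent.FF24.Defs

set_option autoImplicit false

/-!
# FF38/Act3: the facets through a good point (proofs for `FF24/Act`)
-/

open Set Filter Topology
open scoped RealInnerProductSpace

namespace Pool.FF38

open Pool.FF24

variable {E : Type*} [NormedAddCommGroup E] [InnerProductSpace ℝ E] {P : HPoly E} (g : Glue P)

/-- a direction which is positive on all active normals -/
theorem exists_pos (P : HPoly E) (y : E) : ∃ x : E, ∀ u ∈ P.act y, 0 < ⟪u, x⟫ := by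
  obtain ⟨z, hz⟩ := P.int
  refine ⟨y - z, fun u hu => ?_⟩
  rw [inner_sub_right, hu.2]
  exact sub_pos.2 (hz u hu.1)

theorem li_pair {y u v : E} (hu : u ∈ P.act y) (hv : v ∈ P.act y)
    (huv : u ≠ v) : LinearIndependent ℝ ![u, v] := by
  obtain ⟨x, hx⟩ := exists_pos P y
  have hux := hx u hu
  have hvx := hx v hv
  have hun : ‖u‖ = 1 := P.unit u hu.1
  have hvn : ‖v‖ = 1 := P.unit v hv.1
  rw [LinearIndependent.pair_iff]
  intro s t hst
  have h1 : s • u = -(t • v) := eq_neg_of_add_eq_zero_left hst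
  have h2 : |s| = |t| := by
    have h3 : ‖s • u‖ = ‖t • v‖ := by rw [h1, norm_neg]
    rw [norm_smul, norm_smul, hun, hvn, mul_one, mul_one] at h3
    exact h3
  by_cases hs : s = 0
  · refine ⟨hs, ?_⟩
    rw [hs, abs_zero] at h2
    exact abs_eq_zero.1 h2.symm
  · exfalso
    rcases abs_eq_abs.1 h2 with h3 | h3
    · -- s = t : u = - v
      have h4 : s • (u + v) = 0 := by
        rw [smul_add]
        conv_lhs => rw [h3]
        rw [h3] at hst
        exact hst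
      have h5 : u + v = 0 := (smul_eq_zero.1 h4).resolve_left hs
      have h6 : ⟪u, x⟫ + ⟪v, x⟫ = 0 := by
        rw [← inner_add_left, h5, inner_zero_left]
      linarith
    · -- s = - t : u = v
      have h4 : s • (u - v) = 0 := by
        rw [smul_sub, sub_eq_zero, h1, h3, neg_smul]
      have h5 : u - v = 0 := (smul_eq_zero.1 h4).resolve_left hs
      exact huv (sub_eq_zero.1 h5)

/-- an active normal is not a nonnegative combination of two other active normals -/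
theorem no_comb {y u v w : E} (hu : u ∈ P.act y) (hv : v ∈ P.act y)
    (hw : w ∈ P.act y) (huw : u ≠ w) (hvw : v ≠ w) {a b c : ℝ}
    (h : a • u + b • v + c • w = 0) (ha : 0 ≤ a) (hb : 0 ≤ b) (hc : c < 0) : False := by
  obtain ⟨x, hx⟩ := exists_pos P y
  have hux := hx u hu
  have hvx := hx v hv
  have hwx := hx w hw
  obtain ⟨z, hz1, hz2⟩ := P.real w hw.1
  have h1 : a * ⟪u, z⟫ + b * ⟪v, z⟫ + c * ⟪w, z⟫ = 0 := by
    rw [← real_inner_smul_left, ← real_inner_smul_left, ← real_inner_smul_left, ← inner_add_left,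
      ← inner_add_left, h, inner_zero_left]
  have h2 : a * ⟪u, y⟫ + b * ⟪v, y⟫ + c * ⟪w, y⟫ = 0 := by
    rw [← real_inner_smul_left, ← real_inner_smul_left, ← real_inner_smul_left, ← inner_add_left,
      ← inner_add_left, h, inner_zero_left]
  have h3 : a * ⟪u, x⟫ + b * ⟪v, x⟫ + c * ⟪w, x⟫ = 0 := by
    rw [← real_inner_smul_left, ← real_inner_smul_left, ← real_inner_smul_left, ← inner_add_left,
      ← inner_add_left, h, inner_zero_left]
  rw [hu.2, hv.2, hw.2] at h2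
  have hwz : ⟪w, z⟫ = P.h w := (hz2 w hw.1).2 rfl
  have huz : ⟪u, z⟫ < P.h u :=
    lt_of_le_of_ne (hz1 u hu.1) fun h0 => huw ((hz2 u hu.1).1 h0)
  have hvz : ⟪v, z⟫ < P.h v :=
    lt_of_le_of_ne (hz1 v hv.1) fun h0 => hvw ((hz2 v hv.1).1 h0)
  rw [hwz] at h1
  have h4 : a * (P.h u - ⟪u, z⟫) + b * (P.h v - ⟪v, z⟫) = 0 := by linarith
  have h5 : 0 ≤ a * (P.h u - ⟪u, z⟫) := mul_nonneg ha (by linarith)
  have h6 : 0 ≤ b * (P.h v - ⟪v, z⟫) := mul_nonneg hb (by linarith)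
  have h7 : a = 0 := by
    have : a * (P.h u - ⟪u, z⟫) = 0 := by linarith
    rcases mul_eq_zero.1 this with h8 | h8
    · exact h8
    · linarith
  have h8 : b = 0 := by
    have : b * (P.h v - ⟪v, z⟫) = 0 := by linarith
    rcases mul_eq_zero.1 this with h8 | h8
    · exact h8
    · linarith
  rw [h7, h8] at h3
  have h9 : c * ⟪w, x⟫ < 0 := mul_neg_of_neg_of_pos hc hwx
  linarith

theorem li_three {y u v w : E} (hu : u ∈ P.act y) (hv : v ∈ P.act y)
    (hw : w ∈ P.act y) (huv : u ≠ v) (huw : u ≠ w) (hvw : v ≠ w) :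
    LinearIndependent ℝ ![u, v, w] := by
  obtain ⟨x, hx⟩ := exists_pos P y
  have hux := hx u hu
  have hvx := hx v hv
  have hwx := hx w hw
  have hin : ∀ a b c : ℝ, a • u + b • v + c • w = 0 →
      a * ⟪u, x⟫ + b * ⟪v, x⟫ + c * ⟪w, x⟫ = 0 := by
    intro a b c h
    rw [← real_inner_smul_left, ← real_inner_smul_left, ← real_inner_smul_left, ← inner_add_left,
      ← inner_add_left, h, inner_zero_left]
  have k1 : ∀ a b c : ℝ, a • u + b • v + c • w = 0 → 0 ≤ a → 0 ≤ b → 0 ≤ c :=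
    fun a b c h ha hb => by
      by_contra hc
      exact no_comb hu hv hw huw hvw h ha hb (not_le.1 hc)
  have k2 : ∀ a b c : ℝ, a • u + b • v + c • w = 0 → 0 ≤ a → 0 ≤ c → 0 ≤ b :=
    fun a b c h ha hc => by
      by_contra hb
      exact no_comb hu hw hv huv (Ne.symm hvw) (by rw [← h]; abel) ha hc (not_le.1 hb)
  have k3 : ∀ a b c : ℝ, a • u + b • v + c • w = 0 → 0 ≤ b → 0 ≤ c → 0 ≤ a :=
    fun a b c h hb hc => by
      by_contra ha
      exact no_comb hv hw hu (Ne.symm huv) (Ne.symm huw) (by rw [← h]; abel) hb hc (not_le.1 ha)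
  have pp : ∀ a b c : ℝ, a • u + b • v + c • w = 0 → 0 ≤ a → 0 ≤ b → 0 ≤ c →
      a = 0 ∧ b = 0 ∧ c = 0 := by
    intro a b c h ha hb hc
    have h1 := hin a b c h
    have e1 : 0 ≤ a * ⟪u, x⟫ := mul_nonneg ha hux.le
    have e2 : 0 ≤ b * ⟪v, x⟫ := mul_nonneg hb hvx.le
    have e3 : 0 ≤ c * ⟪w, x⟫ := mul_nonneg hc hwx.le
    have f1 : a * ⟪u, x⟫ = 0 := by linarith
    have f2 : b * ⟪v, x⟫ = 0 := by linarith
    have f3 : c * ⟪w, x⟫ = 0 := by linarith
    exact ⟨(mul_eq_zero.1 f1).resolve_right hux.ne', (mul_eq_zero.1 f2).resolve_right hvx.ne',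
      (mul_eq_zero.1 f3).resolve_right hwx.ne'⟩
  have p2 : ∀ a b c : ℝ, a • u + b • v + c • w = 0 →
      ((0 ≤ a ∧ 0 ≤ b) ∨ (0 ≤ a ∧ 0 ≤ c) ∨ (0 ≤ b ∧ 0 ≤ c)) → a = 0 ∧ b = 0 ∧ c = 0 := by
    intro a b c h h2
    rcases h2 with ⟨h3, h4⟩ | ⟨h3, h4⟩ | ⟨h3, h4⟩
    · exact pp a b c h h3 h4 (k1 a b c h h3 h4)
    · exact pp a b c h h3 (k2 a b c h h3 h4) h4
    · exact pp a b c h (k3 a b c h h3 h4) h3 h4
  have main : ∀ a b c : ℝ, a • u + b • v + c • w = 0 → a = 0 ∧ b = 0 ∧ c = 0 := by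
    intro a b c h
    have hneg : (-a) • u + (-b) • v + (-c) • w = 0 := by
      rw [neg_smul, neg_smul, neg_smul, ← neg_add, ← neg_add, h, neg_zero]
    have hn : (-a = 0 ∧ -b = 0 ∧ -c = 0) → a = 0 ∧ b = 0 ∧ c = 0 :=
      fun h3 => ⟨neg_eq_zero.1 h3.1, neg_eq_zero.1 h3.2.1, neg_eq_zero.1 h3.2.2⟩
    rcases le_total 0 a with ha | ha <;> rcases le_total 0 b with hb | hb <;>
      rcases le_total 0 c with hc | hc
    · exact p2 a b c h (Or.inl ⟨ha, hb⟩)
    · exact p2 a b c h (Or.inl ⟨ha, hb⟩)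
    · exact p2 a b c h (Or.inr (Or.inl ⟨ha, hc⟩))
    · exact hn (p2 _ _ _ hneg (Or.inr (Or.inr ⟨by linarith, by linarith⟩)))
    · exact p2 a b c h (Or.inr (Or.inr ⟨hb, hc⟩))
    · exact hn (p2 _ _ _ hneg (Or.inr (Or.inl ⟨by linarith, by linarith⟩)))
    · exact hn (p2 _ _ _ hneg (Or.inl ⟨by linarith, by linarith⟩))
    · exact hn (p2 _ _ _ hneg (Or.inl ⟨by linarith, by linarith⟩))
  rw [Fintype.linearIndependent_iff]
  intro c hc
  rw [Fin.sum_univ_three] at hc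
  have h1 := main (c 0) (c 1) (c 2) hc
  intro i
  fin_cases i
  · exact h1.1
  · exact h1.2.1
  · exact h1.2.2

theorem good_cases {p : E} (hp : p ∉ g.Bad) (τ : g.Lab) :
    P.act (crd τ.1 p) = ∅ ∨ (∃ u, P.act (crd τ.1 p) = {u}) ∨
      ∃ u v, u ≠ v ∧ P.act (crd τ.1 p) = {u, v} := by
  by_cases h0 : P.act (crd τ.1 p) = ∅
  · exact Or.inl h0
  right
  obtain ⟨u, hu⟩ := Set.nonempty_iff_ne_empty.2 h0
  by_cases h1 : ∃ v ∈ P.act (crd τ.1 p), v ≠ u
  · right
    obtain ⟨v, hv, hvu⟩ := h1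
    refine ⟨u, v, Ne.symm hvu, ?_⟩
    refine Set.Subset.antisymm ?_ ?_
    · intro w hw
      by_contra hcon
      rw [mem_insert_iff, mem_singleton_iff, not_or] at hcon
      refine hp ⟨τ, u, hu.1, v, hv.1, w, hw.1, ?_, hu.2, hv.2, hw.2⟩
      exact li_three hu hv hw (Ne.symm hvu) (Ne.symm hcon.1) (Ne.symm hcon.2)
    · intro w hw
      rcases hw with rfl | hw
      · exact hu
      · rw [mem_singleton_iff.1 hw]
        exact hv
  · left
    push Not at h1
    refine ⟨u, Set.Subset.antisymm (fun w hw => mem_singleton_iff.2 (h1 w hw)) ?_⟩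
    intro w hw
    rw [mem_singleton_iff.1 hw]
    exact hu

end Pool.FF38
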