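import Pool.Agent.FF24.Act

set_option autoImplicit false

/-!
# FF38/ActTwo: one step around a ridge (proof of `FF24.act_two`)
-/

open Set Filter Topology
open scoped RealInnerProductSpace

namespace Pool.FF38

open Pool.FF24

variable {E : Type*} [NormedAddCommGroup E] [InnerProductSpace ℝ E] {P : HPoly E} (g : Glue P)

/-- a direction which does not leave through the active facets stays in the body for a while -/
theorem tangent {y x : E} (hy : y ∈ P.body) (hx : ∀ w ∈ P.act y, ⟪w, x⟫ ≤ 0) :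
    ∃ s : ℝ, 0 < s ∧ y + s • x ∈ P.body := by
  have h1 : ∀ w ∈ P.N, ∀ᶠ s in 𝓝[>] (0 : ℝ), ⟪w, y + s • x⟫ ≤ P.h w := by
    intro w hw
    by_cases ha : ⟪w, y⟫ = P.h w
    · filter_upwards [self_mem_nhdsWithin] with s hs
      have h2 := hx w ⟨hw, ha⟩
      rw [inner_add_right, inner_smul_right, ha]
      have h3 : s * ⟪w, x⟫ ≤ 0 := mul_nonpos_of_nonneg_of_nonpos (le_of_lt hs) h2
      linarith
    · have hlt : ⟪w, y⟫ < P.h w := lt_of_le_of_ne (hy w hw) ha
      have hc : Continuous (fun s : ℝ => ⟪w, y + s • x⟫) := by fun_prop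
      have h4 : ∀ᶠ s in 𝓝 (0 : ℝ), ⟪w, y + s • x⟫ < P.h w := by
        refine (hc.tendsto 0).eventually_lt_const ?_
        simpa using hlt
      exact (h4.filter_mono nhdsWithin_le_nhds).mono fun s hs => hs.le
  have h2 : ∀ᶠ s in 𝓝[>] (0 : ℝ), ∀ w ∈ P.N, ⟪w, y + s • x⟫ ≤ P.h w :=
    (Filter.eventually_all_finset _).2 h1
  obtain ⟨s, hs, hs0⟩ := (h2.and self_mem_nhdsWithin).exists
  exact ⟨s, hs0, hs⟩

/-- a vector which is orthogonal to the common orthogonal space of `u` and `v` -/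
theorem in_span {u v w : E} (hv : ‖v‖ = 1) (hD : 0 < ⟪u - ⟪u, v⟫ • v, u - ⟪u, v⟫ • v⟫)
    (h : ∀ x, ⟪u, x⟫ = 0 → ⟪v, x⟫ = 0 → ⟪w, x⟫ = 0) : ∃ a b : ℝ, w = a • u + b • v := by
  set u1 : E := u - ⟪u, v⟫ • v with hu1
  have hvv : ⟪v, v⟫ = 1 := by rw [real_inner_self_eq_norm_sq, hv]; norm_num
  have hvu1 : ⟪v, u1⟫ = 0 := by
    rw [hu1, inner_sub_right, inner_smul_right, hvv, real_inner_comm]
    ring
  set x : E := w - ⟪w, v⟫ • v - (⟪w, u1⟫ / ⟪u1, u1⟫) • u1 with hx
  have hvx : ⟪v, x⟫ = 0 := by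
    rw [hx, inner_sub_right, inner_sub_right, inner_smul_right, inner_smul_right, hvv, hvu1,
      real_inner_comm w v]
    ring
  have hu1x : ⟪u1, x⟫ = 0 := by
    rw [hx, inner_sub_right, inner_sub_right, inner_smul_right, inner_smul_right,
      real_inner_comm v u1, hvu1, real_inner_comm w u1, div_mul_cancel₀ _ hD.ne']
    ring
  have hux : ⟪u, x⟫ = 0 := by
    have h1 : u = u1 + ⟪u, v⟫ • v := by rw [hu1]; abel
    rw [h1, inner_add_left, inner_smul_left, hu1x, hvx]
    simp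
  have hwx := h x hux hvx
  have hxx : ⟪x, x⟫ = 0 := by
    have h1 : ∀ z, ⟪x, z⟫ = ⟪w, z⟫ - ⟪w, v⟫ * ⟪v, z⟫ - (⟪w, u1⟫ / ⟪u1, u1⟫) * ⟪u1, z⟫ := by
      intro z
      rw [hx, inner_sub_left, inner_sub_left, inner_smul_left, inner_smul_left, conj_trivial,
        conj_trivial]
    rw [h1, hwx, hvx, hu1x]
    ring
  have hx0 : x = 0 := inner_self_eq_zero.1 hxx
  refine ⟨⟪w, u1⟫ / ⟪u1, u1⟫, ⟪w, v⟫ - (⟪w, u1⟫ / ⟪u1, u1⟫) * ⟪u, v⟫, ?_⟩
  have h2 : w = ⟪w, v⟫ • v + (⟪w, u1⟫ / ⟪u1, u1⟫) • u1 := by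
    have h3 : w - ⟪w, v⟫ • v - (⟪w, u1⟫ / ⟪u1, u1⟫) • u1 = 0 := hx0
    rw [sub_sub, sub_eq_zero] at h3
    exact h3
  conv_lhs => rw [h2]
  rw [hu1, smul_sub, smul_smul, sub_smul]
  abel

theorem act_two {u v y : E} (hy : y ∈ P.body) (huv : u ≠ v) (h : P.act y = {u, v}) :
    ∃ (w : E) (a b : ℝ), P.act (g.j v y) = {g.star v, w} ∧ g.star v ≠ w ∧ 0 < a ∧
      ((v ∈ g.I ∧ w = -(a • u + b • v)) ∨ (v ∉ g.I ∧ w = a • u + b • v)) := by
  classical
  have huA : u ∈ P.act y := by rw [h]; simp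
  have hvA : v ∈ P.act y := by rw [h]; simp
  have hvN : v ∈ P.N := hvA.1
  have hli := act_pair hy huA hvA huv
  rw [LinearIndependent.pair_iff] at hli
  have hv1 : ‖v‖ = 1 := P.unit v hvN
  have hvv : ⟪v, v⟫ = 1 := by rw [real_inner_self_eq_norm_sq, hv1]; norm_num
  set u1 : E := u - ⟪u, v⟫ • v with hu1
  have hu10 : u1 ≠ 0 := by
    intro h0
    have h1 := hli 1 (-⟪u, v⟫) (by rw [one_smul, neg_smul, ← sub_eq_add_neg]; exact h0)
    exact one_ne_zero h1.1
  have hD : 0 < ⟪u1, u1⟫ := real_inner_self_pos.2 hu10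
  have hvu1 : ⟪v, u1⟫ = 0 := by
    rw [hu1, inner_sub_right, inner_smul_right, hvv, real_inner_comm]
    ring
  have huu1 : ⟪u, u1⟫ = ⟪u1, u1⟫ := by
    have h1 : u = u1 + ⟪u, v⟫ • v := by rw [hu1]; abel
    conv_lhs => rw [h1]
    rw [inner_add_left, inner_smul_left, hvu1]
    simp
  -- the sign
  obtain ⟨e, he, hj, hst⟩ : ∃ e : ℝ, ((v ∈ g.I ∧ e = -1) ∨ (v ∉ g.I ∧ e = 1)) ∧
      (∀ z, g.j v z = e • z + g.c v) ∧ g.star v = -(e • v) := by
    by_cases hI : v ∈ g.I
    · refine ⟨-1, Or.inl ⟨hI, rfl⟩, fun z => ?_, ?_⟩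
      · simp only [Glue.j, if_pos hI]
        rw [neg_one_smul]
        abel
      · simp only [Glue.star, if_pos hI]
        rw [neg_one_smul, neg_neg]
    · refine ⟨1, Or.inr ⟨hI, rfl⟩, fun z => ?_, ?_⟩
      · simp only [Glue.j, if_neg hI]
        rw [one_smul]
      · simp only [Glue.star, if_neg hI]
        rw [one_smul]
  have hee : e * e = 1 := by
    rcases he with ⟨_, rfl⟩ | ⟨_, rfl⟩ <;> norm_num
  have he0 : e ≠ 0 := by
    intro h0
    rw [h0] at hee
    norm_num at hee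
  have hyf : y ∈ P.fc v := ⟨hy, hvA.2⟩
  have hy' : g.j v y ∈ P.fc (g.star v) := j_mem g hvN hyf
  have hshift : ∀ (s : ℝ) (x : E), g.j v (y + s • x) = g.j v y + (s * e) • x := by
    intro s x
    rw [hj, hj, smul_add, smul_smul, mul_comm e s]
    abel
  have hA : ∀ w ∈ P.act (g.j v y), ∀ x, ⟪v, x⟫ = 0 → ⟪u, x⟫ ≤ 0 → e * ⟪w, x⟫ ≤ 0 := by
    intro w hw x hvx hux
    obtain ⟨s, hs, hsb⟩ := tangent (x := x) hy (by
      intro w' hw'
      rw [h] at hw'
      rcases hw' with rfl | hw'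
      · exact hux
      · rw [mem_singleton_iff.1 hw']
        exact hvx.le)
    have h1 : y + s • x ∈ P.fc v := ⟨hsb, by
      rw [inner_add_right, inner_smul_right, hvx, hvA.2]; ring⟩
    have h2 := (j_mem g hvN h1).1 w hw.1
    rw [hshift, inner_add_right, inner_smul_right, hw.2] at h2
    have h3 : s * (e * ⟪w, x⟫) ≤ 0 := by linarith [mul_assoc s e ⟪w, x⟫]
    by_contra hcon
    push Not at hcon
    have := mul_pos hs hcon
    linarith
  have hB : ∀ x, ⟪v, x⟫ = 0 → (∀ w ∈ P.act (g.j v y), e * ⟪w, x⟫ ≤ 0) → ⟪u, x⟫ ≤ 0 := by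
    intro x hvx hx
    obtain ⟨s, hs, hsb⟩ := tangent (x := e • x) hy'.1 (by
      intro w hw
      rw [inner_smul_right]
      exact hx w hw)
    rw [smul_smul, ← hshift] at hsb
    have h1 : g.j v (y + s • x) ∈ P.fc (g.star v) := by
      refine ⟨hsb, ?_⟩
      rw [hshift, inner_add_right, inner_smul_right, hy'.2, hst, inner_neg_left, inner_smul_left,
        hvx]
      simp
    have h2 := j_mem g (star_mem g hvN) h1
    rw [j_j g hvN] at h2
    have h3 := h2.1 u huA.1
    rw [inner_add_right, inner_smul_right, huA.2] at h3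
    by_contra hcon
    push Not at hcon
    have := mul_pos hs hcon
    linarith
  have hspan : ∀ w ∈ P.act (g.j v y), ∃ a b : ℝ, w = a • u + b • v ∧ 0 ≤ e * a := by
    intro w hw
    obtain ⟨a, b, hab⟩ := in_span (w := w) hv1 hD (by
      intro x hux hvx
      have h1 := hA w hw x hvx hux.le
      have h2 := hA w hw (-x) (by rw [inner_neg_right, hvx, neg_zero])
        (by rw [inner_neg_right, hux, neg_zero])
      rw [inner_neg_right] at h2
      have h3 : e * ⟪w, x⟫ = 0 := by linarith [mul_neg e ⟪w, x⟫]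
      exact (mul_eq_zero.1 h3).resolve_left he0)
    refine ⟨a, b, hab, ?_⟩
    have h1 := hA w hw (-u1) (by rw [inner_neg_right, hvu1, neg_zero])
      (by rw [inner_neg_right, huu1]; linarith)
    rw [inner_neg_right, hab, inner_add_left, inner_smul_left, inner_smul_left, hvu1, huu1] at h1
    simp only [conj_trivial, mul_zero, add_zero] at h1
    have h2 : 0 ≤ e * a * ⟪u1, u1⟫ := by
      have : e * -(a * ⟪u1, u1⟫) = -(e * a * ⟪u1, u1⟫) := by ring
      linarith
    by_contra hcon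
    push Not at hcon
    have := mul_neg_of_neg_of_pos hcon hD
    linarith
  obtain ⟨w, hw, a, b, hab, ha⟩ : ∃ w ∈ P.act (g.j v y), ∃ a b : ℝ,
      w = a • u + b • v ∧ 0 < e * a := by
    by_contra hcon
    push Not at hcon
    have h1 := hB u1 hvu1 (by
      intro w hw
      obtain ⟨a, b, hab, ha⟩ := hspan w hw
      have h2 := hcon w hw a b hab
      have h3 : e * a = 0 := le_antisymm h2 ha
      rw [hab, inner_add_left, inner_smul_left, inner_smul_left, hvu1, huu1]
      simp only [conj_trivial, mul_zero, add_zero]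
      rw [← mul_assoc, h3, zero_mul])
    rw [huu1] at h1
    linarith
  have ha0 : a ≠ 0 := by
    intro h0
    rw [h0, mul_zero] at ha
    exact lt_irrefl _ ha
  have hne : g.star v ≠ w := by
    intro h0
    rw [hst, hab] at h0
    have h1 : a • u + (b + e) • v = 0 := by
      rw [add_smul, ← add_assoc, ← h0]
      abel
    exact ha0 (hli _ _ h1).1
  have hsA : g.star v ∈ P.act (g.j v y) := ⟨star_mem g hvN, hy'.2⟩
  refine ⟨w, e * a, e * b, ?_, hne, ha, ?_⟩
  · refine Set.Subset.antisymm ?_ ?_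
    · intro t ht
      by_contra hcon
      rw [mem_insert_iff, mem_singleton_iff, not_or] at hcon
      have h3 := act_three hy'.1 hsA hw ht hne (Ne.symm hcon.1) (Ne.symm hcon.2)
      obtain ⟨a', b', hab', -⟩ := hspan t ht
      rw [Fintype.linearIndependent_iff] at h3
      have h4 := h3 ![a * b' - a' * b, a' * (-e), -(a * (-e))] (by
        rw [Fin.sum_univ_three]
        simp only [Matrix.cons_val_zero, Matrix.cons_val_one, Matrix.cons_val_two,
          Matrix.head_cons, Matrix.tail_cons]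
        rw [hst, hab, hab']
        module) 2
      simp only [Matrix.cons_val_two, Matrix.head_cons, Matrix.tail_cons] at h4
      have h5 : a * e = 0 := by linarith
      rcases mul_eq_zero.1 h5 with h6 | h6
      · exact ha0 h6
      · exact he0 h6
    · intro t ht
      rcases ht with rfl | ht
      · exact hsA
      · rw [mem_singleton_iff.1 ht]
        exact hw
  · rcases he with ⟨hI, rfl⟩ | ⟨hI, rfl⟩
    · refine Or.inl ⟨hI, ?_⟩
      rw [hab]
      module
    · refine Or.inr ⟨hI, ?_⟩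
      rw [hab]
      module

end Pool.FF38
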