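import Pool.Agent.FF79.Main

/-! FF38/Coh: facet-to-facet tilings without a prescribed set `I`. -/

set_option autoImplicit false

open Set Metric
open scoped RealInnerProductSpace

namespace Pool.FF79

open Pool.FF24

variable {E : Type*} [NormedAddCommGroup E] [InnerProductSpace ℝ E]

/-- `T` is a facet-to-facet tiling by the tiles `e • P + t`, `(e, t) ∈ T`, `e = ± 1`: the tiles cover
the space, tiles with different labels have disjoint interiors, and behind every facet `u` of every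
tile there is another tile which has this facet as a facet. -/
structure IsFF (P : HPoly E) (T : Set (ℝ × E)) : Prop where
  sign : ∀ τ ∈ T, τ.1 = 1 ∨ τ.1 = -1
  cover : ∀ x : E, ∃ τ ∈ T, x ∈ X τ '' P.body
  disj : ∀ τ ∈ T, ∀ σ ∈ T, τ ≠ σ →
    Disjoint (interior (X τ '' P.body)) (interior (X σ '' P.body))
  facet : ∀ τ ∈ T, ∀ u ∈ P.N, ∃ σ ∈ T, σ ≠ τ ∧ ∃ v ∈ P.N, X σ '' P.fc v = X τ '' P.fc u

/-- the facet `u` is centrally symmetric -/
def Sym (P : HPoly E) (u : E) : Prop := ∃ c : E, (fun z => c - z) '' P.fc u = P.fc u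

/-- the facet `u` is a translate of the opposite facet -/
def Opp (P : HPoly E) (u : E) : Prop :=
  -u ∈ P.N ∧ ∃ c : E, (fun z => z + c) '' P.fc u = P.fc (-u)

theorem IsTiling.isFF {P : HPoly E} {I : Set E} {T : Set (ℝ × E)} (h : IsTiling P I T) :
    IsFF P T where
  sign := h.sign
  cover := h.cover
  disj := h.disj
  facet := fun τ hτ u hu => by
    obtain ⟨σ, hσ, hne, -, v, hv, hF⟩ := h.facet τ hτ u hu
    exact ⟨σ, hσ, hne, v, hv, hF⟩

/-- the tile behind a facet: the same sign needs a translate of the opposite facet, the opposite sign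
a centrally symmetric facet -/
theorem IsFF.cases {P : HPoly E} {T : Set (ℝ × E)} (h : IsFF P T) {τ σ : ℝ × E} (hτ : τ ∈ T)
    (hσ : σ ∈ T) (hne : σ ≠ τ) {u v : E} (hu : u ∈ P.N) (hv : v ∈ P.N)
    (hF : X σ '' P.fc v = X τ '' P.fc u) :
    (σ.1 = -τ.1 ∧ v = u ∧ Sym P u) ∨ (σ.1 = τ.1 ∧ v = -u ∧ Opp P u) := by
  have hs := h.sign τ hτ
  have hs' := h.sign σ hσ
  have hn := facet_normal P hs hs' hu hv (h.disj τ hτ σ hσ (Ne.symm hne)) hF
  have hττ : τ.1 * τ.1 = 1 := by rcases hs with h0 | h0 <;> rw [h0] <;> norm_num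
  have hX : ∀ z ∈ P.fc v, τ.1 • (X σ z - τ.2) ∈ P.fc u := by
    intro z hz
    have h1 : X σ z ∈ X τ '' P.fc u := by rw [← hF]; exact mem_image_of_mem _ hz
    obtain ⟨w, hw, hwz⟩ := h1
    rw [← hwz]
    have h2 : τ.1 • (X τ w - τ.2) = w := by
      simp only [X, add_sub_cancel_right]
      rw [smul_smul, hττ, one_smul]
    rw [h2]
    exact hw
  have hX' : ∀ w ∈ P.fc u, ∃ z ∈ P.fc v, τ.1 • (X σ z - τ.2) = w := by
    intro w hw
    have h1 : X τ w ∈ X σ '' P.fc v := by rw [hF]; exact mem_image_of_mem _ hw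
    obtain ⟨z, hz, hzw⟩ := h1
    refine ⟨z, hz, ?_⟩
    rw [hzw]
    simp only [X, add_sub_cancel_right]
    rw [smul_smul, hττ, one_smul]
  have hcase : σ.1 = -τ.1 ∨ σ.1 = τ.1 := by
    rcases hs with h0 | h0 <;> rcases hs' with h1 | h1 <;> rw [h0, h1] <;> norm_num
  rcases hcase with hc | hc
  · left
    have h1 : v = u := by
      rw [hc, neg_smul, neg_inj] at hn
      have h2 : τ.1 • (τ.1 • v) = τ.1 • (τ.1 • u) := by rw [hn]
      rwa [smul_smul, smul_smul, hττ, one_smul, one_smul] at h2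
    subst h1
    refine ⟨hc, rfl, τ.1 • (σ.2 - τ.2), ?_⟩
    have h3 : ∀ z, τ.1 • (X σ z - τ.2) = τ.1 • (σ.2 - τ.2) - z := by
      intro z
      simp only [X]
      rw [hc, add_sub_assoc, smul_add, smul_smul, mul_neg, hττ, neg_smul, one_smul]
      abel
    ext w
    constructor
    · rintro ⟨z, hz, rfl⟩
      simp only
      rw [← h3]
      exact hX z hz
    · intro hw
      obtain ⟨z, hz, hzw⟩ := hX' w hw
      exact ⟨z, hz, by simp only; rw [← h3]; exact hzw⟩
  · right
    have h1 : v = -u := by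
      rw [hc] at hn
      have h2 : τ.1 • (τ.1 • v) = τ.1 • (-(τ.1 • u)) := by rw [hn]
      rwa [smul_neg, smul_smul, smul_smul, hττ, one_smul, one_smul] at h2
    subst h1
    refine ⟨hc, rfl, hv, -(τ.1 • (σ.2 - τ.2)), ?_⟩
    have h3 : ∀ z, τ.1 • (X σ z - τ.2) = z + τ.1 • (σ.2 - τ.2) := by
      intro z
      simp only [X]
      rw [hc, add_sub_assoc, smul_add, smul_smul, hττ, one_smul]
    ext w
    constructor
    · rintro ⟨z, hz, rfl⟩
      obtain ⟨z', hz', hzz⟩ := hX' z hz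
      rw [h3] at hzz
      simp only
      rw [← hzz, add_neg_cancel_right]
      exact hz'
    · intro hw
      refine ⟨τ.1 • (X σ w - τ.2), hX w hw, ?_⟩
      simp only
      rw [h3, add_neg_cancel_right]

/-- COHERENCE: if no facet of `P` is both centrally symmetric and a translate of the opposite facet,
then the sign of the tile behind a facet is determined by the facet. -/
theorem IsFF.coherent {P : HPoly E} (hP : ∀ u ∈ P.N, ¬ (Sym P u ∧ Opp P u)) {T : Set (ℝ × E)}
    (h : IsFF P T) : IsTiling P {u | Sym P u} T where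
  sign := h.sign
  cover := h.cover
  disj := h.disj
  facet := fun τ hτ u hu => by
    obtain ⟨σ, hσ, hne, v, hv, hF⟩ := h.facet τ hτ u hu
    refine ⟨σ, hσ, hne, ?_, v, hv, hF⟩
    rcases h.cases hτ hσ hne hu hv hF with ⟨h1, -, h3⟩ | ⟨h1, -, h3⟩
    · exact Or.inl ⟨h3, h1⟩
    · exact Or.inr ⟨fun h4 => hP u hu ⟨h4, h3⟩, h1⟩

/-- the characterisation of the facet-to-facet tiles without ambiguous facets -/
theorem main_ff [FiniteDimensional ℝ E] (P : HPoly E)
    (hP : ∀ u ∈ P.N, ¬ (Sym P u ∧ Opp P u)) :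
    (∃ T, IsFF P T) ↔ ∃ g : Glue P, g.Cyc := by
  constructor
  · rintro ⟨T, hT⟩
    obtain ⟨g, -, hg⟩ := (main P {u | Sym P u}).1 ⟨T, hT.coherent hP⟩
    exact ⟨g, hg⟩
  · rintro ⟨g, hg⟩
    obtain ⟨T, hT⟩ := (main P g.I).2 ⟨g, rfl, hg⟩
    exact ⟨T, hT.isFF⟩

end Pool.FF79
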